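import Pool.Agent.W907.SM.Final

/-!
# All `ℓ²`-Betti numbers vanish if and only if the Euler characteristic does

`Clo.Cl (@GorBase) n G`: the flag complex of `G` is obtained from order complexes of graded posets which are
Gorenstein* over `F_2` (for example barycentric subdivisions of triangulated spheres) by suspensions and stellar
subdivisions of edges; its dimension is `n - 1`. For the right-angled Coxeter group of such a complex the reduced
`ℓ²`-homology of the Davis complex vanishes in all degrees if and only if the Euler characteristic of the group is
zero.
-/

namespace Pool.Agent.Results.MP_394d50_gt.EulerCharacteristicIff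

open Pool.Agent.W907.SG Pool.Agent.W907.SM

/-- `ℓ²`-acyclicity is equivalent to the vanishing of the Euler characteristic. -/
theorem result : ∀ (n : ℕ) (V : Type) [Fintype V] [LinearOrder V] (G : SimpleGraph V), Clo.Cl (@GorBase) n G →
    ((∀ i : ℕ, L2Van G i) ↔ chiW G = 0) := by
  intro n V _ _ G h
  refine l2eul V G (n / 2) fun i hi => ?_
  exact closureGor n V G h i (by omega) _ _

end Pool.Agent.Results.MP_394d50_gt.EulerCharacteristicIff
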